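import Pool.Agent.Lib.MP_6bc78b_nt.MS.QZ.Iface2

/-! QZ module HN0: the integral of the weight for `k = 0`, from HNT with `k = 1 / log L`. -/

set_option autoImplicit false

open MeasureTheory Set

namespace Pool.Agent.Lib.MP_6bc78b_nt.MS.QZ.H24

theorem log_three_gt : (1 : ℝ) < Real.log 3 := by
  rw [Real.lt_log_iff_exp_lt (by norm_num)]
  exact lt_trans Real.exp_one_lt_d9 (by norm_num)

theorem hh_le {L Y k τ : ℝ} (hL : 3 ≤ L) (hY : 1 ≤ Y) (hYL : Y ≤ L) (hk : k = 1 / Real.log L) :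
    hh Y 1 τ ≤ Real.exp 2 * hh Y (1 - k) τ := by
  have hL0 : 0 < L := by linarith
  have hlog : 1 < Real.log L :=
    lt_of_lt_of_le log_three_gt (Real.log_le_log (by norm_num) hL)
  have hk0 : 0 < k := by rw [hk]; positivity
  have hm0 : 0 ≤ min |τ| 1 := le_min (abs_nonneg _) zero_le_one
  have hm1 : min |τ| 1 ≤ 1 := min_le_right _ _
  have hb0 : 0 < 1 + min |τ| 1 * Y := by positivity
  have hb1 : 1 + min |τ| 1 * Y ≤ 2 * L := by nlinarith
  unfold hh
  have e1 : (1 + min |τ| 1 * Y) ^ (1 : ℝ) =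
      (1 + min |τ| 1 * Y) ^ k * (1 + min |τ| 1 * Y) ^ (1 - k) := by
    rw [← Real.rpow_add hb0]
    congr 1
    ring
  have e2 : (1 + min |τ| 1 * Y) ^ k ≤ Real.exp 2 := by
    calc (1 + min |τ| 1 * Y) ^ k ≤ (2 * L) ^ k := Real.rpow_le_rpow hb0.le hb1 hk0.le
      _ = Real.exp (Real.log (2 * L) * k) := by
          rw [Real.rpow_def_of_pos (by positivity)]
      _ ≤ Real.exp 2 := by
          apply Real.exp_le_exp.mpr
          rw [Real.log_mul (by norm_num) hL0.ne', hk]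
          have h2 : Real.log 2 ≤ 1 := by
            have := Real.log_two_lt_d9
            linarith
          have h3 : Real.log 2 * (1 / Real.log L) ≤ 1 := by
            rw [mul_one_div, div_le_one (by linarith)]
            linarith
          have h4 : Real.log L * (1 / Real.log L) = 1 := by
            rw [mul_one_div, div_self (by linarith)]
          rw [add_mul, h4]
          linarith
  have e3 : 0 ≤ (1 + min |τ| 1 * Y) ^ (1 - k) := Real.rpow_nonneg hb0.le _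
  have e4 : 0 ≤ (1 + |τ|) ^ (1 / 4 : ℝ) := Real.rpow_nonneg (by positivity) _
  rw [e1]
  calc (1 + min |τ| 1 * Y) ^ k * (1 + min |τ| 1 * Y) ^ (1 - k) * (1 + |τ|) ^ (1 / 4 : ℝ)
      ≤ Real.exp 2 * (1 + min |τ| 1 * Y) ^ (1 - k) * (1 + |τ|) ^ (1 / 4 : ℝ) := by gcongr
    _ = Real.exp 2 * ((1 + min |τ| 1 * Y) ^ (1 - k) * (1 + |τ|) ^ (1 / 4 : ℝ)) := by ring

/-- HN0. -/
theorem hn0 (h : HntStatement) : Hn0Statement := by
  obtain ⟨C, hC, h⟩ := h
  refine ⟨Real.exp 2 * C, by positivity, fun L Y hL hY hYL => ?_⟩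
  have hL0 : 0 < L := by linarith
  have hlog : 1 < Real.log L :=
    lt_of_lt_of_le log_three_gt (Real.log_le_log (by norm_num) hL)
  obtain ⟨k, hk⟩ : ∃ k : ℝ, k = 1 / Real.log L := ⟨_, rfl⟩
  have hk0 : 0 < k := by rw [hk]; positivity
  have hk1 : k ≤ 1 := by
    rw [hk, div_le_one (by linarith)]
    exact hlog.le
  obtain ⟨hi, hv⟩ := h L Y k hL hY hYL hk0 hk1
  have hden : ∀ τ : ℝ, 0 < L * ((1 / L) ^ 2 + τ ^ 2) := fun τ => by positivity
  have hpw : ∀ τ : ℝ, hh Y 1 τ / (L * ((1 / L) ^ 2 + τ ^ 2)) ≤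
      Real.exp 2 * (hh Y (1 - k) τ / (L * ((1 / L) ^ 2 + τ ^ 2))) := by
    intro τ
    rw [← mul_div_assoc]
    exact div_le_div_of_nonneg_right (hh_le hL hY hYL hk) (hden τ).le
  have hnn : ∀ τ : ℝ, 0 ≤ hh Y 1 τ / (L * ((1 / L) ^ 2 + τ ^ 2)) := by
    intro τ
    unfold hh
    have : 0 ≤ min |τ| 1 := le_min (abs_nonneg _) zero_le_one
    positivity
  have hcont : Continuous (fun τ : ℝ => hh Y 1 τ / (L * ((1 / L) ^ 2 + τ ^ 2))) := by
    unfold hh
    refine Continuous.div ?_ (by fun_prop) (fun τ => (hden τ).ne')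
    refine Continuous.mul ?_ ?_
    · refine Continuous.rpow_const (by fun_prop) (fun τ => Or.inl ?_)
      have : 0 ≤ min |τ| 1 := le_min (abs_nonneg _) zero_le_one
      positivity
    · refine Continuous.rpow_const (by fun_prop) (fun τ => Or.inl ?_)
      positivity
  have hint : Integrable (fun τ : ℝ => hh Y 1 τ / (L * ((1 / L) ^ 2 + τ ^ 2))) := by
    refine (hi.const_mul (Real.exp 2)).mono' hcont.aestronglyMeasurable
      (Filter.Eventually.of_forall (fun τ => ?_))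
    rw [Real.norm_of_nonneg (hnn τ)]
    exact hpw τ
  refine ⟨hint, ?_⟩
  calc ∫ τ : ℝ, hh Y 1 τ / (L * ((1 / L) ^ 2 + τ ^ 2))
      ≤ ∫ τ : ℝ, Real.exp 2 * (hh Y (1 - k) τ / (L * ((1 / L) ^ 2 + τ ^ 2))) :=
        integral_mono hint (hi.const_mul _) hpw
    _ = Real.exp 2 * ∫ τ : ℝ, hh Y (1 - k) τ / (L * ((1 / L) ^ 2 + τ ^ 2)) :=
        integral_const_mul _ _
    _ ≤ Real.exp 2 * (C / k) := by gcongr
    _ = Real.exp 2 * C * Real.log L := by
        rw [hk]
        field_simp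

end Pool.Agent.Lib.MP_6bc78b_nt.MS.QZ.H24
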