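import Pool.Agent.Lib.MP_6bc78b_nt.MS.QZ.Iface

/-! QZ module MR2: Mertens' second theorem, in three forms. -/

set_option autoImplicit false

open Filter Topology Set

namespace Pool.Agent.Lib.MP_6bc78b_nt.MS.QZ.H24

/-- `s ↦ (s - 1) ζ(s)` with its value at `1`. -/
noncomputable def zf : ℂ → ℂ := Function.update (fun s => (s - 1) * riemannZeta s) 1 1

theorem zf_one : zf 1 = 1 := by simp [zf]

theorem zf_ne {s : ℂ} (hs : s ≠ 1) : zf s = (s - 1) * riemannZeta s := by
  simp [zf, Function.update_of_ne hs]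

theorem zf_cont : Continuous zf := by
  rw [continuous_iff_continuousAt]
  intro s
  by_cases hs : s = 1
  · subst hs
    unfold zf
    rw [continuousAt_update_same]
    exact riemannZeta_residue_one
  · unfold zf
    rw [continuousAt_update_of_ne hs]
    exact (continuousAt_id.sub continuousAt_const).mul
      (differentiableAt_riemannZeta hs).continuousAt

theorem zf_ne_zero {d : ℝ} (hd : 0 ≤ d) : zf (1 + (d : ℂ)) ≠ 0 := by
  rcases hd.eq_or_lt with h | h
  · rw [← h]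
    simp [zf_one]
  · have h1 : (1 + (d : ℂ)) ≠ 1 := by
      intro h2
      have : (d : ℂ) = 0 := by linear_combination h2
      rw [Complex.ofReal_eq_zero] at this
      linarith
    rw [zf_ne h1]
    refine mul_ne_zero (sub_ne_zero.mpr h1) ?_
    apply riemannZeta_ne_zero_of_one_le_re
    simp [hd]

theorem zeta_log : ∃ C : ℝ, 0 ≤ C ∧ ∀ d : ℝ, 0 < d → d ≤ 2 →
    |Real.log ‖riemannZeta (1 + (d : ℂ))‖ + Real.log d| ≤ C := by
  have hc : ContinuousOn (fun d : ℝ => Real.log ‖zf (1 + (d : ℂ))‖) (Icc 0 2) := by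
    refine ContinuousOn.log ?_ (fun d hd => ?_)
    · exact (zf_cont.comp (by fun_prop)).norm.continuousOn
    · exact norm_ne_zero_iff.mpr (zf_ne_zero hd.1)
  obtain ⟨C, hC⟩ := isCompact_Icc.exists_bound_of_continuousOn hc
  refine ⟨C, ?_, fun d hd hd2 => ?_⟩
  · exact (norm_nonneg _).trans (hC 0 ⟨le_rfl, by norm_num⟩)
  · have h1 := hC d ⟨hd.le, hd2⟩
    have hne : (1 + (d : ℂ)) ≠ 1 := by
      intro h2
      have : (d : ℂ) = 0 := by linear_combination h2
      rw [Complex.ofReal_eq_zero] at this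
      linarith
    have hz : riemannZeta (1 + (d : ℂ)) ≠ 0 := by
      apply riemannZeta_ne_zero_of_one_le_re
      simp [hd.le]
    rw [zf_ne hne, add_sub_cancel_left, norm_mul, Complex.norm_of_nonneg hd.le,
      Real.log_mul hd.ne' (norm_ne_zero_iff.mpr hz), Real.norm_eq_abs, add_comm] at h1
    exact h1

theorem isPrime_of_mem {a b : ℝ} {p : ℕ} (hp : p ∈ prs a b) : p.Prime := by
  rw [prs, Finset.mem_filter] at hp
  exact hp.2.1

theorem mem_prs {a b : ℝ} {p : ℕ} : p ∈ prs a b ↔ p ≤ ⌊b⌋₊ ∧ p.Prime ∧ a < (p : ℝ) := by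
  rw [prs, Finset.mem_filter, Finset.mem_Icc]
  constructor
  · rintro ⟨⟨_, h2⟩, h3⟩
    exact ⟨h2, h3⟩
  · rintro ⟨h2, h3⟩
    exact ⟨⟨h3.1.one_lt.le, h2⟩, h3⟩

/-- First clause. -/
theorem first (hL : LzpStatement) : ∃ C : ℝ, 0 ≤ C ∧
    ∀ y : ℝ, 2 ≤ y → |rs (prs 1 y) - Real.log (Real.log y)| ≤ C := by
  obtain ⟨C1, hC1, h1⟩ := hL
  obtain ⟨C2, hC2, h2⟩ := zeta_log
  refine ⟨C1 + C2, by positivity, fun y hy => ?_⟩
  have hlog2 : (1 : ℝ) / 2 < Real.log 2 := lt_trans (by norm_num) Real.log_two_gt_d9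
  have hlogy : (1 : ℝ) / 2 < Real.log y :=
    hlog2.trans_le (Real.log_le_log (by norm_num) hy)
  have hly0 : 0 < Real.log y := by linarith
  have h3 := h1 y 0 hy (by simp) (by simp; positivity)
  have hd2 : 1 / Real.log y ≤ 2 := by
    rw [div_le_iff₀ hly0]
    linarith
  have h4 := h2 (1 / Real.log y) (by positivity) hd2
  have h5 : (∑ p ∈ prs 1 y, (p : ℂ) ^ (-(1 + (0 : ℂ)))).re = rs (prs 1 y) := by
    rw [Complex.re_sum, rs]
    refine Finset.sum_congr rfl (fun p _ => ?_)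
    rw [add_zero, Complex.cpow_neg_one, ← Complex.ofReal_natCast, ← Complex.ofReal_inv,
      Complex.ofReal_re]
  rw [h5, add_zero] at h3
  have h6 : Real.log (1 / Real.log y) = -Real.log (Real.log y) := by
    rw [one_div, Real.log_inv]
  rw [h6] at h4
  have h7 := abs_add_le (rs (prs 1 y) - Real.log ‖riemannZeta (1 + ((1 / Real.log y : ℝ) : ℂ))‖)
    (Real.log ‖riemannZeta (1 + ((1 / Real.log y : ℝ) : ℂ))‖ + -Real.log (Real.log y))
  have h8 : rs (prs 1 y) - Real.log ‖riemannZeta (1 + ((1 / Real.log y : ℝ) : ℂ))‖ +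
    (Real.log ‖riemannZeta (1 + ((1 / Real.log y : ℝ) : ℂ))‖ + -Real.log (Real.log y)) =
    rs (prs 1 y) - Real.log (Real.log y) := by ring
  rw [h8] at h7
  linarith

/-- Second clause. -/
theorem second (hM : L.MerStatement) : ∃ C : ℝ, 0 ≤ C ∧ ∀ a b : ℝ, 2 ≤ a → a ≤ b →
    rs (prs a b) ≤ (Real.log b - Real.log a + C) / Real.log a := by
  obtain ⟨C, hC, h1, _, _⟩ := hM
  refine ⟨2 * C, by positivity, fun a b ha hab => ?_⟩
  have hla : 0 < Real.log a := Real.log_pos (by linarith)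
  rw [le_div_iff₀ hla, rs, Finset.sum_mul]
  have hA := abs_le.mp (h1 a (by linarith))
  have hB := abs_le.mp (h1 b (by linarith))
  have hw : ∀ n : ℕ, 0 ≤ L.w1 n := fun n =>
    div_nonneg ArithmeticFunction.vonMangoldt_nonneg (Nat.cast_nonneg n)
  have hfl : ⌊a⌋₊ ≤ ⌊b⌋₊ := Nat.floor_le_floor hab
  have h2 : ∑ p ∈ prs a b, (p : ℝ)⁻¹ * Real.log a ≤ ∑ p ∈ prs a b, L.w1 p := by
    refine Finset.sum_le_sum (fun p hp => ?_)
    obtain ⟨_, hp2, hp3⟩ := mem_prs.mp hp
    have hp0 : (0 : ℝ) < p := by exact_mod_cast hp2.pos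
    rw [L.w1, ArithmeticFunction.vonMangoldt_apply_prime hp2, div_eq_inv_mul]
    have : Real.log a ≤ Real.log p := Real.log_le_log (by linarith) hp3.le
    gcongr
  have h3 : ∑ p ∈ prs a b, L.w1 p + ∑ n ∈ Finset.Icc 1 ⌊a⌋₊, L.w1 n ≤
      ∑ n ∈ Finset.Icc 1 ⌊b⌋₊, L.w1 n := by
    have hdis : Disjoint (prs a b) (Finset.Icc 1 ⌊a⌋₊) := by
      rw [Finset.disjoint_left]
      intro p hp hp2
      obtain ⟨_, _, hp3⟩ := mem_prs.mp hp
      have h5 : (p : ℝ) ≤ a :=
        (Nat.cast_le.mpr (Finset.mem_Icc.mp hp2).2).trans (Nat.floor_le (by linarith))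
      linarith
    rw [← Finset.sum_union hdis]
    refine Finset.sum_le_sum_of_subset_of_nonneg (fun p hp => ?_) (fun p _ _ => hw p)
    rw [Finset.mem_union] at hp
    rw [Finset.mem_Icc]
    rcases hp with hp | hp
    · obtain ⟨hp1, hp2, hp3⟩ := mem_prs.mp hp
      exact ⟨hp2.one_lt.le, hp1⟩
    · exact ⟨(Finset.mem_Icc.mp hp).1, (Finset.mem_Icc.mp hp).2.trans hfl⟩
  linarith [hA.1, hB.2]

/-- MR2. -/
theorem mr2 (hL : LzpStatement) (hM : L.MerStatement) : Mr2Statement := by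
  obtain ⟨C1, hC1, h1⟩ := first hL
  obtain ⟨C2, hC2, h2⟩ := second hM
  refine ⟨2 * C1 + C2 + 1, by positivity, fun y hy => ?_, fun a b ha hab => ?_,
    fun a b ha hab => ?_⟩
  · exact (h1 y hy).trans (by linarith)
  · have hla : 0 < Real.log a := Real.log_pos (by linarith)
    exact (h2 a b ha hab).trans (div_le_div_of_nonneg_right (by linarith) hla.le)
  · have hla : 0 < Real.log a := Real.log_pos (by linarith)
    have hlb : 0 < Real.log b := Real.log_pos (by linarith)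
    have hA := abs_le.mp (h1 a ha)
    have hB := abs_le.mp (h1 b (ha.trans hab))
    have h3 : rs (prs a b) + rs (prs 1 a) = rs (prs 1 b) := by
      have hdis : Disjoint (prs a b) (prs 1 a) := by
        rw [Finset.disjoint_left]
        intro p hp hp2
        have h5 : (p : ℝ) ≤ a :=
          (Nat.cast_le.mpr (mem_prs.mp hp2).1).trans (Nat.floor_le (by linarith))
        linarith [(mem_prs.mp hp).2.2]
      rw [rs, rs, rs, ← Finset.sum_union hdis]
      refine Finset.sum_congr ?_ (fun _ _ => rfl)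
      ext p
      rw [Finset.mem_union, mem_prs, mem_prs, mem_prs]
      have hfl : ⌊a⌋₊ ≤ ⌊b⌋₊ := Nat.floor_le_floor hab
      constructor
      · rintro (⟨h5, h6, h7⟩ | ⟨h5, h6, h7⟩)
        · exact ⟨h5, h6, by linarith⟩
        · exact ⟨h5.trans hfl, h6, h7⟩
      · rintro ⟨h5, h6, h7⟩
        by_cases h8 : a < (p : ℝ)
        · exact Or.inl ⟨h5, h6, h8⟩
        · exact Or.inr ⟨Nat.le_floor (not_lt.mp h8), h6, h7⟩
    rw [Real.log_div hlb.ne' hla.ne']
    linarith [hA.1, hB.2]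

end Pool.Agent.Lib.MP_6bc78b_nt.MS.QZ.H24
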